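import Pool.Agent.Lib.MP_c3a607_gt.Rp.ConfFinal

/-! For k, l ≥ 2 the round metric has the least ratio Vol / Sys^d among all continuous
Riemannian metrics on the real projective space of dimension d = k + l - 1 which are conformal
to a metric invariant under SO(k) x SO(l). The value is the volume of the projective space of
constant curvature 1, divided by π^d. -/

namespace Pool.Agent.Results.MP_c3a607_gt.EquivariantProjective

open Pool.Agent.Lib.MP_c3a607_gt.Rp

theorem result (k l : ℕ) (hk : 2 ≤ k) (hl : 2 ≤ l) :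
    IsMetric (roundG : Sp k l → Matrix (Idx k l) (Idx k l) ℝ) ∧
    Invariant (roundG : Sp k l → Matrix (Idx k l) (Idx k l) ℝ) ∧
    vol (roundG : Sp k l → Matrix (Idx k l) (Idx k l) ℝ) /
        sys (roundG : Sp k l → Matrix (Idx k l) (Idx k l) ℝ) ^ (k + l - 1) =
      √Real.pi ^ (k + l) / (Real.Gamma (((k + l : ℕ) : ℝ) / 2) * Real.pi ^ (k + l - 1)) ∧
    ∀ G : Sp k l → Matrix (Idx k l) (Idx k l) ℝ, IsMetric G → Invariant G →
      ∀ f : Sp k l → ℝ, ContinuousOn f (Metric.sphere 0 1) →
        (∀ x ∈ Metric.sphere (0 : Sp k l) 1, 0 < f x) →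
        (∀ x ∈ Metric.sphere (0 : Sp k l) 1, f (-x) = f x) →
        0 < sys (fun x => f x ^ 2 • G x) ∧
        √Real.pi ^ (k + l) / (Real.Gamma (((k + l : ℕ) : ℝ) / 2) * Real.pi ^ (k + l - 1)) ≤
          vol (fun x => f x ^ 2 • G x) / sys (fun x => f x ^ 2 • G x) ^ (k + l - 1) := by
  obtain ⟨i, rfl⟩ := Nat.exists_eq_add_of_le' hk
  obtain ⟨j, rfl⟩ := Nat.exists_eq_add_of_le' hl
  exact ⟨round_metric, round_invariant, round_ratio i j,
    fun G hG hI f hf hpos he => le_ratio_conf hG hI hf hpos he⟩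

end Pool.Agent.Results.MP_c3a607_gt.EquivariantProjective
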