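import Pool.Agent.Lib.MP_c3a607_gt.Main

/-!
# `MP_c3a607_gt`, Q1: the optimal systolic ratio of `T³` is below that of every flat torus

Some smooth (non-flat) Riemannian metric on the torus `T³` has `Vol < 0.705 · Sys³`, while
`Sys³ ≤ √2 · Vol`, that is `Vol / Sys³ ≥ 1/√2 = 0.7071...`, for every flat metric (Gauss). So
`MinSys(T³) < 0.705`, and the infimum is not attained, and not even approached, by flat metrics.

The metric is invariant under a `2`-torus. With `s = sin (2 π u₀)` it is
`al(u₀)² du₀² + (2 + s) (du₀ + du₁ + du₂)²/4 + (2 - s) (du₁ - du₂)²/4`. On most of the circle of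
the variable `u₀` it is a part of a round `3`-sphere of radius `1/π` (divided by a lattice of
translations of its tori); near `s = 1` and `s = -1` it is close to the product of an interval
and a hexagonal `2`-torus. The two parts of the sphere together have the volume `1/π` of a round
`RP³` of systole `1`, and the systolic inequality for half of the closed curves that stay in
the fibres comes from the antipodal map of the sphere.
-/

set_option autoImplicit false

open Pool.Agent.Lib.MP_c3a607_gt

namespace Pool.Agent.Results.MP_c3a607_gt.NonFlatTorus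

/-- **The best flat `3`-torus is not optimal for the systolic ratio.** There is a smooth metric on
`T³` with `Vol / Sys³ < 0.705`; in particular `MinSys(T³) < 0.705`; and `Vol / Sys³ ≥ 1/√2` for
every flat metric. -/
theorem result :
    (∃ G : TorusMetric 3, 0 < sys G ∧ vol G < 0.705 * sys G ^ 3) ∧
      minSys 3 < 0.705 ∧
      ∀ F : TorusMetric 3, (∀ x, F.g x = F.g 0) → sys F ^ 3 ≤ Real.sqrt 2 * vol F := by
  refine ⟨?_, minSys_lt, flat_bound⟩
  obtain ⟨G, h1, h2⟩ := exists_good
  refine ⟨G, by linarith, lt_of_lt_of_le h2 ?_⟩
  have h3 : 1 ≤ sys G ^ 3 := one_le_pow₀ h1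
  linarith

end Pool.Agent.Results.MP_c3a607_gt.NonFlatTorus
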